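import Pool.Agent.PV3.Stmts

/-!
Squad PV3, module INN: inward first variation of the volume (upper bound).
-/

set_option autoImplicit false

open MeasureTheory Metric Set Filter Topology Pointwise

namespace PV3.H21

open PV PV3

theorem pl_isClosed {n : ℕ} (U : Finset (E n)) (c : E n → ℝ) : IsClosed (Pl U c) := by
  have h : Pl U c = ⋂ w ∈ U, {x : E n | inner ℝ x w ≤ c w} := by
    ext x
    simp [Pl]
  rw [h]
  refine isClosed_biInter fun w _ => ?_
  exact isClosed_le (continuous_id.inner continuous_const) continuous_const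

theorem pl_isCompact {n : ℕ} {U : Finset (E n)} (hb : Bd U) (c : E n → ℝ) :
    IsCompact (Pl U c) :=
  isCompact_of_isClosed_isBounded (pl_isClosed U c) (hb c)

/-- The slab below the face. -/
def Sl {n : ℕ} (U : Finset (E n)) (c d : E n → ℝ) (w : E n) (t : ℝ) : Set (E n) :=
  {x | x ∈ Pl U c ∧ c w - t * d w ≤ inner ℝ x w}

theorem sl_isCompact {n : ℕ} {U : Finset (E n)} (hb : Bd U) (c d : E n → ℝ) (w : E n) (t : ℝ) :
    IsCompact (Sl U c d w t) := by
  have h : Sl U c d w t = Pl U c ∩ {x : E n | c w - t * d w ≤ inner ℝ x w} := rfl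
  rw [h]
  exact (pl_isCompact hb c).inter_right
    (isClosed_le continuous_const (continuous_id.inner continuous_const))

theorem sl_mono {n : ℕ} (U : Finset (E n)) (c d : E n → ℝ) (w : E n) (hd : 0 ≤ d w) {t s : ℝ}
    (h : t ≤ s) : Sl U c d w t ⊆ Sl U c d w s := by
  rintro x ⟨h1, h2⟩
  refine ⟨h1, le_trans ?_ h2⟩
  have := mul_le_mul_of_nonneg_right h hd
  linarith

theorem sl_inter {n : ℕ} (U : Finset (E n)) (c d : E n → ℝ) (w : E n) (hw : w ∈ U)
    (hd : 0 ≤ d w) : (⋂ j : ℕ, Sl U c d w (1 / ((j : ℝ) + 1))) = Fc U c w := by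
  ext x
  simp only [mem_iInter, Sl, mem_setOf_eq, Fc]
  constructor
  · intro h
    refine ⟨(h 0).1, le_antisymm ((h 0).1 w hw) ?_⟩
    have ht : Tendsto (fun j : ℕ => c w - 1 / ((j : ℝ) + 1) * d w) atTop
        (𝓝 (c w - 0 * d w)) :=
      tendsto_const_nhds.sub ((tendsto_one_div_add_atTop_nhds_zero_nat (𝕜 := ℝ)).mul_const _)
    have h2 := le_of_tendsto' ht fun j => (h j).2
    simpa using h2
  · rintro ⟨h1, h2⟩ j
    refine ⟨h1, ?_⟩
    rw [h2]
    have : (0 : ℝ) ≤ 1 / ((j : ℝ) + 1) * d w := by positivity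
    linarith

theorem ar_nonneg {n : ℕ} (w : E n) (S : Set (E n)) : 0 ≤ ar w S := ENNReal.toReal_nonneg

/-- The area of the slabs tends to the area of the face. -/
theorem ar_ev (hAR : ARStmt) {n : ℕ} {U : Finset (E n)} (hU : Un U) (hb : Bd U)
    (c d : E n → ℝ) (hd : ∀ w ∈ U, 0 ≤ d w) {w : E n} (hw : w ∈ U) {e : ℝ} (he : 0 < e) :
    ∀ᶠ t : ℝ in 𝓝[>] 0, ar w (Sl U c d w t) ≤ fa U c w + e := by
  obtain ⟨_, _, hm, hlim⟩ := hAR n w (hU w hw)
  have h1 := hlim (fun j : ℕ => Sl U c d w (1 / ((j : ℝ) + 1)))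
    (fun j => sl_isCompact hb c d w _)
    (fun i j hij => sl_mono U c d w (hd w hw) (by
      apply one_div_le_one_div_of_le
      · positivity
      · have : (i : ℝ) ≤ j := by exact_mod_cast hij
        linarith))
  rw [sl_inter U c d w hw (hd w hw)] at h1
  have h2 : ∀ᶠ j : ℕ in atTop, ar w (Sl U c d w (1 / ((j : ℝ) + 1))) < fa U c w + e :=
    h1.eventually_lt_const (by unfold fa; linarith)
  obtain ⟨j, hj⟩ := h2.exists
  have h3 : ∀ᶠ t : ℝ in 𝓝[>] 0, t < 1 / ((j : ℝ) + 1) := by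
    apply mem_nhdsWithin_of_mem_nhds
    exact Iio_mem_nhds (by positivity)
  filter_upwards [h3] with t ht
  exact le_trans (hm _ _ (sl_isCompact hb c d w _)
    (sl_mono U c d w (hd w hw) ht.le)) hj.le

/-- INN. -/
theorem inn (hAR : ARStmt) : INNStmt := by
  intro n U c d hU hb hd e he
  set D : ℝ := ∑ w ∈ U, d w with hD
  have hD0 : 0 ≤ D := Finset.sum_nonneg hd
  set e' : ℝ := e / (D + 1) with he'
  have he'0 : 0 < e' := by positivity
  have h1 : ∀ᶠ t : ℝ in 𝓝[>] 0, ∀ w ∈ U, ar w (Sl U c d w t) ≤ fa U c w + e' := by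
    rw [Filter.eventually_all_finset]
    intro w hw
    exact ar_ev hAR hU hb c d hd hw he'0
  filter_upwards [h1, self_mem_nhdsWithin] with t ht ht0
  have ht0' : (0 : ℝ) < t := ht0
  have hP := pl_isCompact hb c
  have hsub : (Pl U fun w => c w - t * d w) ⊆ Pl U c := by
    intro x hx w hw
    have h2 := hx w hw
    have h3 : 0 ≤ t * d w := mul_nonneg ht0'.le (hd w hw)
    have h4 : inner ℝ x w ≤ c w - t * d w := h2
    linarith
  have hPt : MeasurableSet (Pl U fun w => c w - t * d w) := (pl_isClosed U _).measurableSet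
  have hfin : volume (Pl U c) ≠ ⊤ := hP.measure_lt_top.ne
  have hcov : Pl U c \ (Pl U fun w => c w - t * d w) ⊆
      ⋃ w ∈ U, {x | x ∈ Sl U c d w t ∧ c w - t * d w ≤ inner ℝ x w ∧ inner ℝ x w ≤ c w} := by
    rintro x ⟨hx, hx'⟩
    have h5 : ∃ w ∈ U, ¬ inner ℝ x w ≤ c w - t * d w := by
      by_contra hcon
      push Not at hcon
      exact hx' hcon
    obtain ⟨w, hw, h6⟩ := h5
    push Not at h6
    rw [mem_iUnion₂]
    exact ⟨w, hw, ⟨hx, h6.le⟩, h6.le, hx w hw⟩
  have hfinw : ∀ w, volume {x | x ∈ Sl U c d w t ∧ c w - t * d w ≤ inner ℝ x w ∧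
      inner ℝ x w ≤ c w} ≠ ⊤ := by
    intro w
    refine ne_top_of_le_ne_top hfin (measure_mono ?_)
    rintro x ⟨h7, _⟩
    exact h7.1
  have hv : vl (Pl U c) - vl (Pl U fun w => c w - t * d w) ≤
      ∑ w ∈ U, vl {x | x ∈ Sl U c d w t ∧ c w - t * d w ≤ inner ℝ x w ∧ inner ℝ x w ≤ c w} := by
    have h8 : vl (Pl U c) - vl (Pl U fun w => c w - t * d w) =
        (volume (Pl U c \ (Pl U fun w => c w - t * d w))).toReal := by
      unfold vl
      rw [measure_diff hsub hPt.nullMeasurableSet (ne_top_of_le_ne_top hfin (measure_mono hsub)),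
        ENNReal.toReal_sub_of_le (measure_mono hsub) hfin]
    rw [h8]
    unfold vl
    rw [← ENNReal.toReal_sum (fun w _ => hfinw w)]
    refine ENNReal.toReal_mono ?_ ?_
    · exact ENNReal.sum_ne_top.2 fun w _ => hfinw w
    · exact (measure_mono hcov).trans (measure_biUnion_finset_le _ _)
  refine hv.trans ?_
  have hw1 : ∀ w ∈ U, vl {x | x ∈ Sl U c d w t ∧ c w - t * d w ≤ inner ℝ x w ∧
      inner ℝ x w ≤ c w} ≤ t * (fa U c w * d w + e' * d w) := by
    intro w hw
    obtain ⟨h9, _, _, _⟩ := hAR n w (hU w hw)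
    have h10 : 0 ≤ t * d w := mul_nonneg ht0'.le (hd w hw)
    have h11 := h9 (Sl U c d w t) (sl_isCompact hb c d w t) (c w - t * d w) (c w) (by linarith)
    refine h11.trans ?_
    have h12 : (c w - (c w - t * d w)) * ar w (Sl U c d w t) ≤
        (t * d w) * (fa U c w + e') := by
      have h13 : c w - (c w - t * d w) = t * d w := by ring
      rw [h13]
      exact mul_le_mul_of_nonneg_left (ht w hw) h10
    refine h12.trans (le_of_eq ?_)
    ring
  refine (Finset.sum_le_sum hw1).trans ?_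
  rw [← Finset.mul_sum]
  refine mul_le_mul_of_nonneg_left ?_ ht0'.le
  rw [Finset.sum_add_distrib, ← Finset.mul_sum]
  have h14 : e' * D ≤ e := by
    rw [he', div_mul_eq_mul_div, div_le_iff₀ (by positivity)]
    nlinarith
  linarith

end PV3.H21
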